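import Pool.Agent.Helper10_BAN.Stmt

set_option autoImplicit false

/-!
# MAINX: parallelogram law for the norm (squad BAN)
-/

namespace Pool.Agent.BAN.H23

open MeasureTheory Filter Topology Set Module

variable {𝕜 : Type} [RCLike 𝕜]

theorem finrank_perp (k : ℕ) {ν : EuclideanSpace 𝕜 (Fin (k + 1))} (hν : ν ≠ 0) :
    finrank 𝕜 ((𝕜 ∙ ν)ᗮ : Submodule 𝕜 (EuclideanSpace 𝕜 (Fin (k + 1)))) = k := by
  have : Fact (finrank 𝕜 (EuclideanSpace 𝕜 (Fin (k + 1))) = k + 1) := ⟨by simp⟩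
  exact Submodule.finrank_orthogonal_span_singleton hν

/-- a unit vector orthogonal to two vectors -/
theorem exists_unit (k : ℕ) (hk : 2 ≤ k) (x y : EuclideanSpace 𝕜 (Fin (k + 1))) :
    ∃ ν : EuclideanSpace 𝕜 (Fin (k + 1)), ‖ν‖ = 1 ∧ inner 𝕜 ν x = 0 ∧ inner 𝕜 ν y = 0 := by
  classical
  set W : Submodule 𝕜 (EuclideanSpace 𝕜 (Fin (k + 1))) := Submodule.span 𝕜 {x, y} with hW
  have h1 : finrank 𝕜 W ≤ 2 := by
    have h2 := finrank_span_finset_le_card (R := 𝕜) ({x, y} : Finset (EuclideanSpace 𝕜 (Fin (k + 1))))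
    have h3 : (({x, y} : Finset (EuclideanSpace 𝕜 (Fin (k + 1)))) : Set _) = {x, y} := by simp
    rw [Set.finrank, h3] at h2
    exact h2.trans Finset.card_le_two
  have h4 : finrank 𝕜 W + finrank 𝕜 Wᗮ = k + 1 := by
    rw [Submodule.finrank_add_finrank_orthogonal]
    simp
  have h5 : 0 < finrank 𝕜 Wᗮ := by omega
  have h6 : Wᗮ ≠ ⊥ := by
    intro h
    rw [h, finrank_bot] at h5
    exact lt_irrefl _ h5
  obtain ⟨z, hz, hz0⟩ := Submodule.exists_mem_ne_zero_of_ne_bot h6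
  have hx : x ∈ W := Submodule.subset_span (by simp)
  have hy : y ∈ W := Submodule.subset_span (by simp)
  have e1 : inner 𝕜 z x = 0 := Submodule.inner_left_of_mem_orthogonal hx hz
  have e2 : inner 𝕜 z y = 0 := Submodule.inner_left_of_mem_orthogonal hy hz
  have hzn : ‖z‖ ≠ 0 := norm_ne_zero_iff.2 hz0
  refine ⟨((‖z‖ : ℝ) : 𝕜)⁻¹ • z, ?_, ?_, ?_⟩
  · rw [norm_smul, norm_inv, RCLike.norm_ofReal, abs_norm]
    exact inv_mul_cancel₀ hzn
  · rw [inner_smul_left, e1, mul_zero]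
  · rw [inner_smul_left, e2, mul_zero]

theorem mainX (h1 : MAINIStmt) (h2 : INVIPStmt) : MAINXStmt := by
  intro 𝕜 _ k hk Φ hΦ hiso x y
  -- the model subspace
  obtain ⟨e, he, -, -⟩ := exists_unit (𝕜 := 𝕜) k hk 0 0
  have he0 : e ≠ 0 := by
    intro h
    rw [h, norm_zero] at he
    exact zero_ne_one he
  set H : Submodule 𝕜 (EuclideanSpace 𝕜 (Fin (k + 1))) := (𝕜 ∙ e)ᗮ with hH
  have hHk : finrank 𝕜 H = k := finrank_perp k he0
  let ι : EuclideanSpace 𝕜 (Fin k) ≃ₗ[𝕜] H :=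
    LinearEquiv.ofFinrankEq _ _ (by rw [hHk]; simp)
  let φ' : Seminorm 𝕜 (EuclideanSpace 𝕜 (Fin k)) := Φ.comp (H.subtype ∘ₗ ι.toLinearMap)
  have hφ' : ∀ v, φ' v = Φ (ι v : EuclideanSpace 𝕜 (Fin (k + 1))) := fun v => rfl
  have hφpos : ∀ v, v ≠ 0 → 0 < φ' v := by
    intro v hv
    rw [hφ']
    refine hΦ _ fun h => hv ?_
    have : ι v = 0 := Subtype.ext h
    simpa using this
  obtain ⟨T, hT⟩ := h2 𝕜 (EuclideanSpace 𝕜 (Fin k)) φ' hφpos
  let φ : Seminorm 𝕜 (EuclideanSpace 𝕜 (Fin k)) := φ'.comp T.toLinearEquiv.toLinearMap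
  have hφ : ∀ v, φ v = Φ (ι (T v) : EuclideanSpace 𝕜 (Fin (k + 1))) := fun v => rfl
  have hDat : Dat φ Φ := by
    refine ⟨by simp, ?_, hΦ, ?_, ?_⟩
    · intro v hv
      rw [hφ]
      refine hφpos (T v) fun h => hv ?_
      simpa using h
    · intro g hg
      exact hT g fun v => hg v
    · intro ν hν
      have hν0 : ν ≠ 0 := by
        intro h
        rw [h, norm_zero] at hν
        exact zero_ne_one hν
      obtain ⟨g, hg⟩ := hiso H (𝕜 ∙ ν)ᗮ hHk (finrank_perp k hν0)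
      let A : EuclideanSpace 𝕜 (Fin k) →ₗ[𝕜] EuclideanSpace 𝕜 (Fin (k + 1)) :=
        ((𝕜 ∙ ν)ᗮ).subtype ∘ₗ g.toLinearMap ∘ₗ ι.toLinearMap ∘ₗ T.toLinearEquiv.toLinearMap
      refine ⟨LinearMap.toContinuousLinearMap A, ?_, ?_⟩
      · intro v
        exact hg (ι (T v))
      · intro v
        exact Submodule.mem_orthogonal_singleton_iff_inner_right.1 (g (ι (T v))).2
  have hpar := h1 𝕜 (EuclideanSpace 𝕜 (Fin k)) (EuclideanSpace 𝕜 (Fin (k + 1))) φ Φ hDat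
  -- transfer
  obtain ⟨ν, hν, hνx, hνy⟩ := exists_unit (𝕜 := 𝕜) k hk x y
  have hν0 : ν ≠ 0 := by
    intro h
    rw [h, norm_zero] at hν
    exact zero_ne_one hν
  obtain ⟨g, hg⟩ := hiso H (𝕜 ∙ ν)ᗮ hHk (finrank_perp k hν0)
  have hsurj : ∀ z : EuclideanSpace 𝕜 (Fin (k + 1)), inner 𝕜 ν z = 0 →
      ∃ a : EuclideanSpace 𝕜 (Fin k), (g (ι (T a)) : EuclideanSpace 𝕜 (Fin (k + 1))) = z := by
    intro z hz
    have hm : z ∈ (𝕜 ∙ ν)ᗮ := Submodule.mem_orthogonal_singleton_iff_inner_right.2 hz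
    refine ⟨T.symm (ι.symm (g.symm ⟨z, hm⟩)), ?_⟩
    simp
  obtain ⟨a, rfl⟩ := hsurj x hνx
  obtain ⟨b, rfl⟩ := hsurj y hνy
  have e1 : Φ ((g (ι (T a)) : EuclideanSpace 𝕜 (Fin (k + 1))) + g (ι (T b))) = φ (a + b) := by
    have h : (g (ι (T (a + b))) : EuclideanSpace 𝕜 (Fin (k + 1))) = g (ι (T a)) + g (ι (T b)) := by
      simp only [map_add, Submodule.coe_add]
    rw [hφ, ← hg, h]
  have e2 : Φ ((g (ι (T a)) : EuclideanSpace 𝕜 (Fin (k + 1))) - g (ι (T b))) = φ (a - b) := by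
    have h : (g (ι (T (a - b))) : EuclideanSpace 𝕜 (Fin (k + 1))) = g (ι (T a)) - g (ι (T b)) := by
      simp only [map_sub, Submodule.coe_sub]
    rw [hφ, ← hg, h]
  have e3 : Φ (g (ι (T a)) : EuclideanSpace 𝕜 (Fin (k + 1))) = φ a := by rw [hφ, ← hg]
  have e4 : Φ (g (ι (T b)) : EuclideanSpace 𝕜 (Fin (k + 1))) = φ b := by rw [hφ, ← hg]
  rw [e1, e2, e3, e4]
  exact hpar a b

end Pool.Agent.BAN.H23
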