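import Pool.Agent.Helper10_BAN.Stmt

set_option autoImplicit false

/-!
# POS: positivity of the constants (squad BAN)
-/

namespace Pool.Agent.BAN.H23

open MeasureTheory Filter Topology Set

theorem low {E : Type} [NormedAddCommGroup E] [InnerProductSpace ℝ E] [FiniteDimensional ℝ E]
    [Nontrivial E] (Φ : E → ℝ) (hc : Continuous Φ) (hp : ∀ x, x ≠ 0 → 0 < Φ x)
    (hh : ∀ (t : ℝ) (x : E), Φ (t • x) = |t| * Φ x) : ∃ c : ℝ, 0 < c ∧ ∀ x, c * ‖x‖ ≤ Φ x := by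
  obtain ⟨x0, hx0, hmin⟩ := (isCompact_sphere (0 : E) 1).exists_isMinOn
    (NormedSpace.sphere_nonempty.2 zero_le_one) hc.continuousOn
  have hn : ‖x0‖ = 1 := by simpa using hx0
  have hx0' : x0 ≠ 0 := by
    intro h
    rw [h, norm_zero] at hn
    exact zero_ne_one hn
  refine ⟨Φ x0, hp x0 hx0', fun x => ?_⟩
  by_cases hx : x = 0
  · have h0 : Φ (0 : E) = 0 := by
      have := hh 0 (0 : E)
      simpa using this
    rw [hx, h0]
    simp
  · have hxn : 0 < ‖x‖ := norm_pos_iff.2 hx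
    have h1 : (‖x‖)⁻¹ • x ∈ Metric.sphere (0 : E) 1 := by
      rw [mem_sphere_zero_iff_norm, norm_smul, norm_inv, norm_norm]
      exact inv_mul_cancel₀ hxn.ne'
    have h2 : Φ x0 ≤ Φ ((‖x‖)⁻¹ • x) := hmin h1
    have h3 : Φ x = ‖x‖ * Φ ((‖x‖)⁻¹ • x) := by
      rw [hh, abs_inv, abs_norm, ← mul_assoc, mul_inv_cancel₀ hxn.ne', one_mul]
    rw [h3, mul_comm]
    exact mul_le_mul_of_nonneg_left h2 hxn.le

theorem pos : POSStmt := by
  intro E _ _ _ _ _ _ μ _ Φ hc hp hh i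
  obtain ⟨c, hc0, hlow⟩ := low Φ hc hp hh
  obtain ⟨y, hy⟩ := exists_ne (0 : E)
  have hy0 : 0 < Φ y := hp y hy
  -- a point where the integrand is positive
  have hpt : ∃ z : E, ‖z‖ ^ (2 * i) * max 0 (1 - Φ z) ≠ 0 := by
    refine ⟨(2 * Φ y)⁻¹ • y, ?_⟩
    have h1 : Φ ((2 * Φ y)⁻¹ • y) = 1 / 2 := by
      rw [hh, abs_of_pos (by positivity)]
      field_simp
    have h2 : (2 * Φ y)⁻¹ • y ≠ 0 := smul_ne_zero (by positivity) hy
    rw [h1]
    have h3 : 0 < ‖(2 * Φ y)⁻¹ • y‖ := norm_pos_iff.2 h2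
    have h4 : max 0 (1 - (1 : ℝ) / 2) = 1 / 2 := by norm_num
    rw [h4]
    positivity
  obtain ⟨z, hz⟩ := hpt
  refine Continuous.integral_pos_of_hasCompactSupport_nonneg_nonzero
    (f := fun x => ‖x‖ ^ (2 * i) * max 0 (1 - Φ x)) ?_ ?_ ?_ hz
  · fun_prop
  · refine HasCompactSupport.intro (isCompact_closedBall (0 : E) (1 / c)) fun x hx => ?_
    have h1 : 1 / c < ‖x‖ := by simpa using hx
    have h2 : 1 < c * ‖x‖ := by
      rw [div_lt_iff₀ hc0] at h1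
      linarith
    have h3 : 1 - Φ x ≤ 0 := by linarith [hlow x]
    rw [max_eq_left h3, mul_zero]
  · intro x
    positivity

end Pool.Agent.BAN.H23
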